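import Pool.Agent.Helper32_ABCT.EStmts

/-!
Squad ABCT (MP_a17fcb_ag), module EPOLY: the degree count.
-/

namespace ABCT.H96

open Finset MvPolynomial

theorem sum_erase_symm (f : ℕ → ℕ → ℤ) (hf : ∀ a b, f a b = f b a) (N : ℕ) :
    ∑ a ∈ range N, ∑ b ∈ (range N).erase a, f a b =
      2 * ∑ b ∈ range N, ∑ a ∈ range b, f a b := by
  induction N with
  | zero => simp
  | succ N ih =>
    rw [Finset.sum_range_succ, Finset.sum_range_succ, mul_add, ← ih]
    have h1 : ∀ a ∈ range N, ∑ b ∈ (range (N + 1)).erase a, f a b =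
        ∑ b ∈ (range N).erase a, f a b + f a N := by
      intro a ha
      have haN : a < N := Finset.mem_range.1 ha
      have h2 : (range (N + 1)).erase a = insert N ((range N).erase a) := by
        ext x
        simp only [Finset.mem_erase, Finset.mem_range, Finset.mem_insert]
        omega
      rw [h2, Finset.sum_insert (by simp), add_comm]
    rw [Finset.sum_congr rfl h1, Finset.sum_add_distrib]
    have h3 : (range (N + 1)).erase N = range N := by
      ext x
      simp only [Finset.mem_erase, Finset.mem_range]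
      omega
    rw [h3]
    have h4 : ∑ b ∈ range N, f N b = ∑ a ∈ range N, f a N :=
      Finset.sum_congr rfl fun b _ => hf N b
    rw [h4]
    ring

theorem sum_pairs (W : ℕ → ℤ) (N : ℕ) :
    ∑ b ∈ range N, ∑ a ∈ range b, (W a + W b) = ((N : ℤ) - 1) * ∑ a ∈ range N, W a := by
  have h := sum_erase_symm (fun a b => W a + W b) (fun a b => add_comm _ _) N
  have h1 : ∑ a ∈ range N, ∑ b ∈ (range N).erase a, (W a + W b) =
      2 * (((N : ℤ) - 1) * ∑ a ∈ range N, W a) := by
    have h2 : ∀ a ∈ range N, ∑ b ∈ (range N).erase a, (W a + W b) =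
        ((N : ℤ) - 2) * W a + ∑ b ∈ range N, W b := by
      intro a ha
      rw [Finset.sum_add_distrib, Finset.sum_const, Finset.card_erase_of_mem ha,
        Finset.card_range, nsmul_eq_mul]
      have h3 := Finset.add_sum_erase (range N) W ha
      have h4 : 1 ≤ N := by
        have := Finset.mem_range.1 ha
        omega
      push_cast [Nat.cast_sub h4]
      linarith
    rw [Finset.sum_congr rfl h2, Finset.sum_add_distrib, ← Finset.mul_sum, Finset.sum_const,
      Finset.card_range, nsmul_eq_mul]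
    ring
  linarith

section lin

variable {K : Type} [Field K]

/-- the linear form `X b - X a` -/
noncomputable def lf (a b : ℕ) : MvPolynomial ℕ K := X b - X a

theorem coeff_lf_right {a b : ℕ} (h : a ≠ b) :
    coeff (Finsupp.single b 1) (lf a b : MvPolynomial ℕ K) = 1 := by
  have h1 : ¬ (Finsupp.single a 1 : ℕ →₀ ℕ) = Finsupp.single b 1 := fun h1 =>
    h (Finsupp.single_left_injective one_ne_zero h1)
  rw [lf, coeff_sub, MvPolynomial.coeff_X, MvPolynomial.coeff_X, if_pos rfl, if_neg h1, sub_zero]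

theorem coeff_lf_left {a b : ℕ} (h : a ≠ b) :
    coeff (Finsupp.single a 1) (lf a b : MvPolynomial ℕ K) = -1 := by
  have h1 : ¬ (Finsupp.single b 1 : ℕ →₀ ℕ) = Finsupp.single a 1 := fun h1 =>
    h (Finsupp.single_left_injective one_ne_zero h1).symm
  rw [lf, coeff_sub, MvPolynomial.coeff_X, MvPolynomial.coeff_X, if_pos rfl, if_neg h1, zero_sub]

theorem lf_ne {a b : ℕ} (h : a ≠ b) : (lf a b : MvPolynomial ℕ K) ≠ 0 := by
  intro h0
  have := coeff_lf_right (K := K) h
  rw [h0, coeff_zero] at this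
  exact zero_ne_one this

theorem one_le_degreeOf_right {a b : ℕ} (h : a ≠ b) :
    1 ≤ degreeOf b (lf a b : MvPolynomial ℕ K) := by
  have h1 : Finsupp.single b 1 ∈ (lf a b : MvPolynomial ℕ K).support := by
    rw [mem_support_iff, coeff_lf_right h]
    exact one_ne_zero
  have := monomial_le_degreeOf b h1
  simpa using this

theorem one_le_degreeOf_left {a b : ℕ} (h : a ≠ b) :
    1 ≤ degreeOf a (lf a b : MvPolynomial ℕ K) := by
  have h1 : Finsupp.single a 1 ∈ (lf a b : MvPolynomial ℕ K).support := by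
    rw [mem_support_iff, coeff_lf_left h]
    exact neg_ne_zero.2 one_ne_zero
  have := monomial_le_degreeOf a h1
  simpa using this

theorem degreeOf_lf_zero {a b i : ℕ} (ha : i ≠ a) (hb : i ≠ b) :
    degreeOf i (lf a b : MvPolynomial ℕ K) = 0 := by
  have h := degreeOf_sub_le i (X b : MvPolynomial ℕ K) (X a)
  have h1 : degreeOf i (X a : MvPolynomial ℕ K) = 0 := degreeOf_X_of_ne ha
  have h2 : degreeOf i (X b : MvPolynomial ℕ K) = 0 := degreeOf_X_of_ne hb
  rw [h1, h2] at h
  exact Nat.le_zero.1 h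

theorem totalDegree_lf_le (a b : ℕ) : (lf a b : MvPolynomial ℕ K).totalDegree ≤ 1 := by
  refine (totalDegree_sub _ _).trans ?_
  simp

theorem totalDegree_lf {a b : ℕ} (h : a ≠ b) : (lf a b : MvPolynomial ℕ K).totalDegree = 1 := by
  refine le_antisymm (totalDegree_lf_le a b) ?_
  exact (one_le_degreeOf_right (K := K) h).trans (degreeOf_le_totalDegree _ _)

theorem irreducible_lf {a b : ℕ} (h : a ≠ b) : Irreducible (lf a b : MvPolynomial ℕ K) := by
  apply irreducible_of_totalDegree_eq_one (totalDegree_lf h)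
  intro x hx
  have := hx (Finsupp.single b 1)
  rw [coeff_lf_right h] at this
  exact isUnit_of_dvd_one this

theorem not_dvd_lf {a b c d : ℕ} (hab : a < b) (hcd : c < d) (hne : ¬ (a = c ∧ b = d)) :
    ¬ (lf a b : MvPolynomial ℕ K) ∣ lf c d := by
  rintro ⟨s, hs⟩
  have hs0 : s ≠ 0 := by
    rintro rfl
    rw [mul_zero] at hs
    exact lf_ne hcd.ne hs
  by_cases h1 : a ≠ c ∧ a ≠ d
  · have h2 := congrArg (degreeOf a) hs
    rw [degreeOf_mul_eq (lf_ne hab.ne) hs0, degreeOf_lf_zero h1.1 h1.2] at h2
    have := one_le_degreeOf_left (K := K) hab.ne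
    omega
  · by_cases h3 : b ≠ c ∧ b ≠ d
    · have h2 := congrArg (degreeOf b) hs
      rw [degreeOf_mul_eq (lf_ne hab.ne) hs0, degreeOf_lf_zero h3.1 h3.2] at h2
      have := one_le_degreeOf_right (K := K) hab.ne
      omega
    · omega

end lin

/-- the set of pairs `⟨b, a⟩` with `a < b < N` -/
def prs (N : ℕ) : Finset (Σ _ : ℕ, ℕ) := (range N).sigma fun b => range b

theorem mem_prs {N : ℕ} {p : Σ _ : ℕ, ℕ} : p ∈ prs N ↔ p.1 < N ∧ p.2 < p.1 := by
  simp [prs]

theorem epoly : ABCT.EpolyStmt := by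
  classical
  intro K _ m r δ dH H k W hm hδ hH hvar hk hhom hdH hdiv hdeg
  set N := m - 1 with hN
  have hN3 : 3 ≤ N := by omega
  let κ : ℕ → ℕ → ℤ := fun a b => k a b + δ * (W a + W b)
  let e : ℕ → ℕ → ℕ := fun a b => (κ a b).toNat
  have hκ : ∀ a b, κ a b = κ b a := by
    intro a b
    simp only [κ, hk a b, add_comm]
  have he : ∀ a b, e a b = e b a := by
    intro a b
    simp only [e, hκ a b]
  have heκ : ∀ a b, κ a b ≤ e a b := fun a b => Int.self_le_toNat _
  let PP : MvPolynomial ℕ K := ∏ p ∈ prs N, lf p.2 p.1 ^ e p.2 p.1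
  have hPPdvd : PP ∣ H := by
    apply Finset.prod_dvd_of_isRelPrime
    · intro p hp q hq hpq
      rw [Finset.mem_coe, mem_prs] at hp hq
      apply IsRelPrime.pow
      rw [(irreducible_lf hp.2.ne).isRelPrime_iff_not_dvd]
      apply not_dvd_lf hp.2 hq.2
      rintro ⟨h1, h2⟩
      apply hpq
      rcases p with ⟨p1, p2⟩
      rcases q with ⟨q1, q2⟩
      simp only at h1 h2
      subst h1 h2
      rfl
    · intro p hp
      rw [mem_prs] at hp
      exact hdiv p.2 p.1 hp.2 (by omega)
  obtain ⟨Q, hQ⟩ := hPPdvd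
  have hQ0 : Q ≠ 0 := by
    rintro rfl
    exact hH (by rw [hQ, mul_zero])
  have hPP0 : PP ≠ 0 := by
    intro h
    exact hH (by rw [hQ, h, zero_mul])
  have hfac0 : ∀ p ∈ prs N, (lf p.2 p.1 ^ e p.2 p.1 : MvPolynomial ℕ K) ≠ 0 := by
    intro p hp
    rw [mem_prs] at hp
    exact pow_ne_zero _ (lf_ne hp.2.ne)
  -- total degree
  have htot : (dH : ℤ) - ∑ b ∈ range N, ∑ a ∈ range b, (e a b : ℤ) ≤ Q.totalDegree := by
    have h1 : H.totalDegree = dH := hhom.totalDegree hH
    have h2 : PP.totalDegree ≤ ∑ p ∈ prs N, e p.2 p.1 := by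
      refine (totalDegree_finsetProd _ _).trans ?_
      apply Finset.sum_le_sum
      intro p _
      refine (totalDegree_pow _ _).trans ?_
      have := totalDegree_lf_le (K := K) p.2 p.1
      calc e p.2 p.1 * (lf p.2 p.1 : MvPolynomial ℕ K).totalDegree ≤ e p.2 p.1 * 1 :=
            Nat.mul_le_mul_left _ this
        _ = e p.2 p.1 := mul_one _
    have h3 : ∑ p ∈ prs N, e p.2 p.1 = ∑ b ∈ range N, ∑ a ∈ range b, e a b := by
      rw [prs, Finset.sum_sigma]
    have h4 : H.totalDegree = PP.totalDegree + Q.totalDegree := by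
      conv_lhs => rw [hQ]
      exact totalDegree_mul_of_isDomain hPP0 hQ0
    have h5 : dH ≤ (∑ b ∈ range N, ∑ a ∈ range b, e a b) + Q.totalDegree := by omega
    have h6 : (dH : ℤ) ≤ ((∑ b ∈ range N, ∑ a ∈ range b, e a b : ℕ) : ℤ) + Q.totalDegree := by
      exact_mod_cast h5
    push_cast at h6
    linarith
  -- degrees of PP
  have hdegPP : ∀ a < N, ∑ b ∈ (range N).erase a, e a b ≤ degreeOf a PP := by
    intro a ha
    rw [degreeOf_prod_eq _ _ hfac0]
    let g : ℕ → (Σ _ : ℕ, ℕ) := fun b => if b < a then ⟨a, b⟩ else ⟨b, a⟩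
    have hginj : Set.InjOn g ((range N).erase a : Set ℕ) := by
      intro x hx y hy hxy
      have hx' := Finset.ne_of_mem_erase (Finset.mem_coe.1 hx)
      have hy' := Finset.ne_of_mem_erase (Finset.mem_coe.1 hy)
      simp only [g] at hxy
      split_ifs at hxy with h1 h2 h2
      · simpa using hxy
      · have := congrArg Sigma.fst hxy
        simp only at this
        omega
      · have := congrArg Sigma.fst hxy
        simp only at this
        omega
      · simpa using hxy
    have himg : ((range N).erase a).image g ⊆ prs N := by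
      intro p hp
      obtain ⟨b, hb, rfl⟩ := Finset.mem_image.1 hp
      have hb1 := Finset.ne_of_mem_erase hb
      have hb2 := Finset.mem_range.1 (Finset.mem_of_mem_erase hb)
      rw [mem_prs]
      simp only [g]
      split_ifs with h
      · exact ⟨ha, h⟩
      · exact ⟨hb2, by simp only; omega⟩
    calc ∑ b ∈ (range N).erase a, e a b
        ≤ ∑ b ∈ (range N).erase a, degreeOf a (lf (g b).2 (g b).1 ^ e (g b).2 (g b).1 :
            MvPolynomial ℕ K) := by
          apply Finset.sum_le_sum
          intro b hb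
          have hb1 := Finset.ne_of_mem_erase hb
          simp only [g]
          split_ifs with h
          · simp only
            rw [degreeOf_pow_eq _ _ _ (lf_ne h.ne), he a b]
            exact Nat.le_mul_of_pos_right _ (one_le_degreeOf_right h.ne)
          · simp only
            have h' : a ≠ b := Ne.symm hb1
            rw [degreeOf_pow_eq _ _ _ (lf_ne h')]
            exact Nat.le_mul_of_pos_right _ (one_le_degreeOf_left h')
      _ = ∑ p ∈ ((range N).erase a).image g, degreeOf a (lf p.2 p.1 ^ e p.2 p.1 :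
            MvPolynomial ℕ K) := by
          rw [Finset.sum_image hginj]
      _ ≤ ∑ p ∈ prs N, degreeOf a (lf p.2 p.1 ^ e p.2 p.1 : MvPolynomial ℕ K) :=
          Finset.sum_le_sum_of_subset himg
  have hHQ : ∀ a, degreeOf a H = degreeOf a PP + degreeOf a Q := by
    intro a
    conv_lhs => rw [hQ]
    exact degreeOf_mul_eq hPP0 hQ0
  -- total degree of Q from the degrees
  have htotQ : Q.totalDegree ≤ ∑ a ∈ range N, degreeOf a Q := by
    rw [totalDegree]
    apply Finset.sup_le
    intro s hs
    have hle : ∀ i, s i ≤ degreeOf i Q := fun i => monomial_le_degreeOf i hs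
    have hsupp : s.support ⊆ range N := by
      intro i hi
      rw [Finset.mem_range]
      by_contra hcon
      have h1 := hvar i (by omega)
      have h2 := hHQ i
      have h3 := hle i
      have h4 := Finsupp.mem_support_iff.1 hi
      omega
    calc s.sum (fun _ x => x) = ∑ i ∈ s.support, s i := rfl
      _ ≤ ∑ i ∈ range N, s i := Finset.sum_le_sum_of_subset hsupp
      _ ≤ ∑ i ∈ range N, degreeOf i Q := Finset.sum_le_sum fun i _ => hle i
  -- conclusion
  set S : ℤ := ∑ a ∈ range N, W a with hS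
  set E : ℤ := ∑ b ∈ range N, ∑ a ∈ range b, (e a b : ℤ) with hE
  set Kk : ℤ := ∑ b ∈ range N, ∑ a ∈ range b, (k a b : ℤ) with hKk
  let Y : ℕ → ℤ := fun a => if δ = 0 then (r - 1 : ℤ) * W a
          else (∑ b ∈ Finset.range (m - 1), W b) + (r - 2 : ℤ) * W a
  have hb : ∀ a ∈ range N, (degreeOf a Q : ℤ) ≤ (∑ b ∈ (range N).erase a, (k a b : ℤ)) + Y a -
      (if a = 0 then 1 else 0) - ∑ b ∈ (range N).erase a, (e a b : ℤ) := by
    intro a ha
    have haN := Finset.mem_range.1 ha
    have h1 := hdeg a (by omega)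
    have h2 := hdegPP a haN
    have h3 := hHQ a
    have h4 : (degreeOf a H : ℤ) = degreeOf a PP + degreeOf a Q := by exact_mod_cast h3
    have h5 : (∑ b ∈ (range N).erase a, (e a b : ℤ)) ≤ degreeOf a PP := by exact_mod_cast h2
    have h6 : Y a = (if δ = 0 then (r - 1 : ℤ) * W a
          else (∑ b ∈ Finset.range (m - 1), W b) + (r - 2 : ℤ) * W a) := rfl
    rw [← h6] at h1
    linarith
  have hsum := Finset.sum_le_sum hb
  rw [Finset.sum_sub_distrib, Finset.sum_sub_distrib, Finset.sum_add_distrib,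
    sum_erase_symm (fun a b => (k a b : ℤ)) (fun a b => by rw [hk a b]) N,
    sum_erase_symm (fun a b => (e a b : ℤ)) (fun a b => by rw [he a b]) N] at hsum
  have h10 : ∑ a ∈ range N, (if a = 0 then (1 : ℤ) else 0) = 1 := by
    rw [Finset.sum_ite_eq' (range N) 0 (fun _ => (1 : ℤ))]
    rw [if_pos (Finset.mem_range.2 (by omega))]
  rw [h10] at hsum
  have htQ : (Q.totalDegree : ℤ) ≤ ∑ a ∈ range N, (degreeOf a Q : ℤ) := by exact_mod_cast htotQ
  have hEκ : ∑ b ∈ range N, ∑ a ∈ range b, κ a b ≤ E := by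
    apply Finset.sum_le_sum
    intro b _
    apply Finset.sum_le_sum
    intro a _
    exact heκ a b
  have hκsum : ∑ b ∈ range N, ∑ a ∈ range b, κ a b = Kk + δ * (((N : ℤ) - 1) * S) := by
    simp only [κ, Finset.sum_add_distrib, ← Finset.mul_sum]
    rw [← sum_pairs W N]
    simp only [Finset.sum_add_distrib]
    rfl
  have hmain : (r - 1 : ℤ) * S + Kk - E ≤ 2 * Kk + ∑ a ∈ range N, Y a - 1 - 2 * E := by
    have := htot
    rw [hdH] at this
    linarith
  rcases hδ with h0 | ⟨h1, hr⟩
  · have hY : ∑ a ∈ range N, Y a = (r - 1 : ℤ) * S := by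
      rw [hS, Finset.mul_sum]
      apply Finset.sum_congr rfl
      intro a _
      simp [Y, h0]
    rw [hY] at hmain
    rw [hκsum, h0] at hEκ
    push_cast at hEκ
    linarith
  · have hY : ∑ a ∈ range N, Y a = (N : ℤ) * S + (r - 2 : ℤ) * S := by
      have : ∀ a ∈ range N, Y a = S + (r - 2 : ℤ) * W a := by
        intro a _
        simp only [Y, h1, one_ne_zero, if_false]
        rfl
      rw [Finset.sum_congr rfl this, Finset.sum_add_distrib, Finset.sum_const, Finset.card_range,
        nsmul_eq_mul, ← Finset.mul_sum]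
    rw [hY] at hmain
    rw [hκsum, h1] at hEκ
    push_cast at hEκ
    linarith

end ABCT.H96
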