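import Mathlib

/-!
Finitely generated cones in a finite dimensional real space are closed; Farkas lemma.
(Squad ABCT, MP_a17fcb_ag, used in EXIT.)
-/

namespace ABCT.H96

open Set Finset

variable {E : Type*} [NormedAddCommGroup E] [NormedSpace ℝ E] [FiniteDimensional ℝ E]
variable {ι : Type*} [DecidableEq ι]

/-- the cone generated by the vectors `v i`, `i ∈ S` -/
def cone (v : ι → E) (S : Finset ι) : Set E :=
  {x | ∃ c : ι → ℝ, (∀ i ∈ S, 0 ≤ c i) ∧ x = ∑ i ∈ S, c i • v i}

omit [FiniteDimensional ℝ E] in
theorem cone_erase_subset (v : ι → E) (S : Finset ι) (j : ι) :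
    cone v (S.erase j) ⊆ cone v S := by
  rintro x ⟨c, hc, rfl⟩
  refine ⟨fun i => if i = j then 0 else c i, ?_, ?_⟩
  · intro i hi
    by_cases h : i = j
    · simp [h]
    · simp only [h, if_false]
      exact hc i (Finset.mem_erase.2 ⟨h, hi⟩)
  · by_cases hj : j ∈ S
    · rw [← Finset.add_sum_erase S _ hj]
      simp only [if_true, zero_smul, zero_add]
      apply Finset.sum_congr rfl
      intro i hi
      rw [if_neg (Finset.ne_of_mem_erase hi)]
    · rw [Finset.erase_eq_of_notMem hj]
      apply Finset.sum_congr rfl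
      intro i hi
      have h : i ≠ j := by rintro rfl; exact hj hi
      simp [h]

omit [FiniteDimensional ℝ E] in
/-- if there is a linear relation with a positive coefficient, one generator can be dropped -/
theorem cone_reduce (v : ι → E) (S : Finset ι) (g : ι → ℝ) (hg : ∑ i ∈ S, g i • v i = 0)
    (hpos : ∃ i ∈ S, 0 < g i) {x : E} (hx : x ∈ cone v S) : ∃ j ∈ S, x ∈ cone v (S.erase j) := by
  obtain ⟨c, hc, rfl⟩ := hx
  have hne : (S.filter fun i => 0 < g i).Nonempty := by
    obtain ⟨i, hi, h⟩ := hpos
    exact ⟨i, Finset.mem_filter.2 ⟨hi, h⟩⟩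
  obtain ⟨j, hj, hmin⟩ := Finset.exists_min_image _ (fun i => c i / g i) hne
  rw [Finset.mem_filter] at hj
  refine ⟨j, hj.1, fun i => c i - c j / g j * g i, ?_, ?_⟩
  · intro i hi
    have hiS := Finset.mem_of_mem_erase hi
    by_cases h : 0 < g i
    · have h1 := hmin i (Finset.mem_filter.2 ⟨hiS, h⟩)
      have h2 : c j / g j * g i ≤ c i / g i * g i := mul_le_mul_of_nonneg_right h1 h.le
      rw [div_mul_cancel₀ _ h.ne'] at h2
      linarith
    · have h3 : 0 ≤ c j / g j := div_nonneg (hc j hj.1) hj.2.le
      have h4 : c j / g j * g i ≤ 0 := mul_nonpos_of_nonneg_of_nonpos h3 (not_lt.1 h)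
      have := hc i hiS
      linarith
  · have h5 : ∑ i ∈ S, (c i - c j / g j * g i) • v i = ∑ i ∈ S, c i • v i := by
      have : ∑ i ∈ S, (c i - c j / g j * g i) • v i =
          ∑ i ∈ S, c i • v i - (c j / g j) • ∑ i ∈ S, g i • v i := by
        rw [Finset.smul_sum, ← Finset.sum_sub_distrib]
        apply Finset.sum_congr rfl
        intro i _
        rw [sub_smul, mul_smul]
      rw [this, hg, smul_zero, sub_zero]
    rw [← h5, ← Finset.add_sum_erase S _ hj.1, div_mul_cancel₀ _ hj.2.ne', sub_self, zero_smul,
      zero_add]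

omit [FiniteDimensional ℝ E] in
theorem isClosed_cone (v : ι → E) (S : Finset ι) : IsClosed (cone v S) := by
  induction S using Finset.strongInduction with
  | H S ih =>
    by_cases hli : LinearIndependent ℝ (fun i : S => v i)
    · let L : (S → ℝ) →ₗ[ℝ] E := Fintype.linearCombination ℝ (fun i : S => v i)
      have hL : ∀ c, L c = ∑ i : S, c i • v i := fun c => rfl
      have hker : LinearMap.ker L = ⊥ := by
        rw [LinearMap.ker_eq_bot']
        intro c hc
        rw [hL] at hc
        funext i
        exact Fintype.linearIndependent_iff.1 hli c hc i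
      have hce := LinearMap.isClosedEmbedding_of_injective (𝕜 := ℝ) hker
      have hset : cone v S = L '' {c | ∀ i, 0 ≤ c i} := by
        ext x
        constructor
        · rintro ⟨c, hc, rfl⟩
          refine ⟨fun i => c i, fun i => hc i i.2, ?_⟩
          rw [hL]
          exact Finset.sum_coe_sort S (fun i => c i • v i)
        · rintro ⟨c, hc, rfl⟩
          refine ⟨fun i => if h : i ∈ S then c ⟨i, h⟩ else 0, ?_, ?_⟩
          · intro i hi
            simp only [hi, dif_pos]
            exact hc _
          · rw [hL, ← Finset.sum_coe_sort S]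
            apply Finset.sum_congr rfl
            intro i _
            simp
      rw [hset]
      apply hce.isClosedMap
      have : {c : S → ℝ | ∀ i, 0 ≤ c i} = ⋂ i, {c | 0 ≤ c i} := by
        ext; simp
      rw [this]
      exact isClosed_iInter fun i => isClosed_le continuous_const (continuous_apply i)
    · rw [Fintype.linearIndependent_iff] at hli
      push Not at hli
      obtain ⟨g0, hg0, i0, hi0⟩ := hli
      obtain ⟨g, hg, hpos⟩ : ∃ g : ι → ℝ, ∑ i ∈ S, g i • v i = 0 ∧ ∃ i ∈ S, 0 < g i := by
        have key : ∀ a : S → ℝ, ∑ i : S, a i • v i = 0 → 0 < a i0 →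
            ∃ g : ι → ℝ, ∑ i ∈ S, g i • v i = 0 ∧ ∃ i ∈ S, 0 < g i := by
          intro a ha hp
          refine ⟨fun i => if h : i ∈ S then a ⟨i, h⟩ else 0, ?_, i0, i0.2, ?_⟩
          · rw [← Finset.sum_coe_sort S, ← ha]
            apply Finset.sum_congr rfl
            intro i _
            simp
          · simpa using hp
        rcases lt_or_gt_of_ne hi0 with h | h
        · refine key (fun i => - g0 i) ?_ (by simpa using h)
          simp only [neg_smul, Finset.sum_neg_distrib, hg0, neg_zero]
        · exact key g0 hg0 h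
      have hset : cone v S = ⋃ j ∈ S, cone v (S.erase j) := by
        ext x
        simp only [Set.mem_iUnion, exists_prop]
        constructor
        · exact fun hx => cone_reduce v S g hg hpos hx
        · rintro ⟨j, _, hx⟩
          exact cone_erase_subset v S j hx
      rw [hset]
      exact isClosed_biUnion_finset fun j hj => ih _ (Finset.erase_ssubset hj)

omit [FiniteDimensional ℝ E] in
theorem convex_cone (v : ι → E) (S : Finset ι) : Convex ℝ (cone v S) := by
  rintro x ⟨c, hc, rfl⟩ y ⟨d, hd, rfl⟩ a b ha hb _
  refine ⟨fun i => a * c i + b * d i, fun i hi => ?_, ?_⟩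
  · have := mul_nonneg ha (hc i hi)
    have := mul_nonneg hb (hd i hi)
    linarith
  · simp only [Finset.smul_sum, ← Finset.sum_add_distrib, add_smul, mul_smul]

omit [FiniteDimensional ℝ E] in
/-- **Farkas lemma** -/
theorem farkas (v : ι → E) (S : Finset ι) (x : E) (hx : x ∉ cone v S) :
    ∃ f : StrongDual ℝ E, (∀ i ∈ S, 0 ≤ f (v i)) ∧ f x < 0 := by
  obtain ⟨f, u, hfx, hf⟩ := geometric_hahn_banach_point_closed (convex_cone v S)
    (isClosed_cone v S) hx
  have h0 : u < 0 := by
    have := hf 0 ⟨0, fun _ _ => le_refl _, by simp⟩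
    simpa using this
  refine ⟨f, fun i hi => ?_, hfx.trans h0⟩
  by_contra hneg
  push Not at hneg
  have hmem : (u / f (v i)) • v i ∈ cone v S := by
    refine ⟨fun j => if j = i then u / f (v i) else 0, ?_, ?_⟩
    · intro j _
      by_cases h : j = i
      · simp only [h, if_true]
        exact div_nonneg_of_nonpos h0.le hneg.le
      · simp [h]
    · rw [Finset.sum_eq_single i]
      · simp
      · intro j _ hji
        simp [hji]
      · intro h
        exact absurd hi h
  have := hf _ hmem
  rw [map_smul, smul_eq_mul, div_mul_cancel₀ _ hneg.ne] at this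
  exact lt_irrefl _ this

end ABCT.H96
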