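import Pool.Agent.Helper32_ABCT.EStmts
import Pool.Agent.Helper96_ABCT.Farkas

/-!
Squad ABCT (MP_a17fcb_ag), module EXIT: a ray from the barycentre leaves the polytope in a
proper face.
-/

namespace ABCT.H96

open Finset

theorem exit : ABCT.ExitStmt := by
  classical
  intro M w β hM hw hβ hwβ
  set T : Finset ℕ := M.biUnion id with hT
  have hwT : ∀ i, i ∉ T → w i = 0 := by
    intro i hi
    rw [hwβ i]
    apply Finset.sum_eq_zero
    intro I hI
    rw [Finset.mem_filter] at hI
    exact absurd (Finset.mem_biUnion.2 ⟨I, hI.1, hI.2⟩) hi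
  obtain ⟨i0, hi0⟩ := hw
  have hi0T : i0 ∈ T := by
    by_contra h
    exact hi0 (hwT i0 h)
  let ind : Finset ℕ → (T → ℝ) := fun I i => if (i : ℕ) ∈ I then 1 else 0
  let wT : T → ℝ := fun i => w i
  let b : T → ℝ := fun i => ((M.filter fun I => (i : ℕ) ∈ I).card : ℝ) / M.card
  have hMc : (0 : ℝ) < M.card := by exact_mod_cast hM.card_pos
  -- marginals
  have hmarg : ∀ (α : Finset ℕ → ℝ) (i : T), (∑ I ∈ M, α I • ind I) i =
      ∑ I ∈ M.filter (fun I => (i : ℕ) ∈ I), α I := by
    intro α i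
    rw [Finset.sum_apply, Finset.sum_filter]
    apply Finset.sum_congr rfl
    intro I _
    simp [ind]
  -- the feasible set
  let F : Set ℝ := {τ | ∃ α : Finset ℕ → ℝ, (∀ I ∈ M, 0 ≤ α I) ∧ ∑ I ∈ M, α I = 1 ∧
    ∑ I ∈ M, α I • ind I = b + τ • wT}
  have hFcomp : IsCompact F := by
    let L : (M → ℝ) →ₗ[ℝ] (T → ℝ) := Fintype.linearCombination ℝ (fun I : M => ind I)
    have hL : ∀ c, L c = ∑ I : M, c I • ind I := fun c => rfl
    have hPc : IsCompact (L '' stdSimplex ℝ M) :=
      (isCompact_stdSimplex ℝ M).image L.continuous_of_finiteDimensional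
    have hF : F = (fun τ : ℝ => b + τ • wT) ⁻¹' (L '' stdSimplex ℝ M) := by
      ext τ
      constructor
      · rintro ⟨α, h1, h2, h3⟩
        refine ⟨fun I => α I, ⟨fun I => h1 I I.2, ?_⟩, ?_⟩
        · rw [← h2]; exact Finset.sum_coe_sort M α
        · rw [hL]; simp only; rw [← h3]; exact Finset.sum_coe_sort M (fun I => α I • ind I)
      · rintro ⟨c, ⟨h1, h2⟩, h3⟩
        refine ⟨fun I => if h : I ∈ M then c ⟨I, h⟩ else 0, ?_, ?_, ?_⟩
        · intro I hI; simp only [hI, dif_pos]; exact h1 _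
        · rw [← h2, ← Finset.sum_coe_sort M]
          apply Finset.sum_congr rfl
          intro I _; simp
        · simp only at h3
          rw [← h3, hL, ← Finset.sum_coe_sort M]
          apply Finset.sum_congr rfl
          intro I _; simp
    have hclosed : IsClosed F := by
      rw [hF]
      exact hPc.isClosed.preimage (by fun_prop)
    have hbdd : F ⊆ Set.Icc (-(1 + |b ⟨i0, hi0T⟩|) / |w i0|) ((1 + |b ⟨i0, hi0T⟩|) / |w i0|) := by
      rintro τ ⟨α, h1, h2, h3⟩
      have h4 := congrFun h3 ⟨i0, hi0T⟩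
      rw [hmarg] at h4
      simp only [Pi.add_apply, Pi.smul_apply, smul_eq_mul] at h4
      have h5 : 0 ≤ ∑ I ∈ M.filter (fun I => i0 ∈ I), α I :=
        Finset.sum_nonneg fun I hI => h1 I (Finset.mem_of_mem_filter I hI)
      have h6 : ∑ I ∈ M.filter (fun I => i0 ∈ I), α I ≤ 1 := by
        rw [← h2]
        exact Finset.sum_le_sum_of_subset_of_nonneg (Finset.filter_subset _ _)
          fun I hI _ => h1 I hI
      have hwp : 0 < |w i0| := abs_pos.2 hi0
      have h7 : |τ| * |w i0| ≤ 1 + |b ⟨i0, hi0T⟩| := by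
        rw [← abs_mul]
        have h8 : τ * w i0 = ∑ I ∈ M.filter (fun I => i0 ∈ I), α I - b ⟨i0, hi0T⟩ := by
          have : wT ⟨i0, hi0T⟩ = w i0 := rfl
          rw [this] at h4
          linarith
        rw [h8]
        calc |∑ I ∈ M.filter (fun I => i0 ∈ I), α I - b ⟨i0, hi0T⟩|
            ≤ |∑ I ∈ M.filter (fun I => i0 ∈ I), α I| + |b ⟨i0, hi0T⟩| := abs_sub _ _
          _ ≤ 1 + |b ⟨i0, hi0T⟩| := by rw [abs_of_nonneg h5]; linarith
      have h9 : |τ| ≤ (1 + |b ⟨i0, hi0T⟩|) / |w i0| := by rwa [le_div_iff₀ hwp]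
      rw [abs_le] at h9
      rw [Set.mem_Icc, neg_div]
      exact h9
    exact isCompact_Icc.of_isClosed_subset hclosed hbdd
  -- a positive feasible value
  obtain ⟨t0, ht0, ht0F⟩ : ∃ t : ℝ, 0 < t ∧ t ∈ F := by
    set B : ℝ := 1 + ∑ I ∈ M, |β I| with hB
    have hBpos : 0 < B := by
      have : 0 ≤ ∑ I ∈ M, |β I| := Finset.sum_nonneg fun I _ => abs_nonneg _
      linarith
    refine ⟨1 / (M.card * B), by positivity, fun I => 1 / M.card + 1 / (M.card * B) * β I,
      ?_, ?_, ?_⟩
    · intro I hI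
      have h1 : |β I| ≤ B := by
        have : |β I| ≤ ∑ I ∈ M, |β I| :=
          Finset.single_le_sum (f := fun I => |β I|) (fun I _ => abs_nonneg (β I)) hI
        linarith
      have h2 : -B ≤ β I := by
        have := neg_abs_le (β I)
        linarith
      have h3 : 1 / (M.card * B) * β I ≥ 1 / (M.card * B) * (-B) :=
        mul_le_mul_of_nonneg_left h2 (by positivity)
      have h4 : 1 / (M.card * B) * (-B) = - (1 / (M.card : ℝ)) := by
        field_simp
      rw [h4] at h3
      linarith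
    · rw [Finset.sum_add_distrib, ← Finset.mul_sum, hβ, mul_zero, add_zero, Finset.sum_const,
        nsmul_eq_mul]
      field_simp
    · funext i
      rw [hmarg, Finset.sum_add_distrib, ← Finset.mul_sum, ← hwβ, Finset.sum_const, nsmul_eq_mul]
      simp only [Pi.add_apply, Pi.smul_apply, smul_eq_mul, b, wT]
      ring
  obtain ⟨τ, hτF, hτmax⟩ := hFcomp.exists_isMaxOn ⟨t0, ht0F⟩ continuousOn_id
  have hτpos : 0 < τ := lt_of_lt_of_le ht0 (hτmax ht0F)
  obtain ⟨α, hα0, hα1, hαb⟩ := hτF
  set p : T → ℝ := b + τ • wT with hp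
  -- `w` is not in the cone of `ind I - p`
  have hcone : wT ∉ cone (fun I => ind I - p) M := by
    rintro ⟨c, hc, hwc⟩
    set C : ℝ := ∑ I ∈ M, c I with hC
    have hC0 : 0 ≤ C := Finset.sum_nonneg hc
    set ε : ℝ := 1 / (C + 1) with hε
    have hεpos : 0 < ε := by positivity
    have hεC : ε * C ≤ 1 := by
      rw [hε, one_div, inv_mul_le_iff₀ (by positivity)]
      linarith
    have hmem : τ + ε ∈ F := by
      refine ⟨fun I => (1 - ε * C) * α I + ε * c I, ?_, ?_, ?_⟩
      · intro I hI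
        have h1 := mul_nonneg (sub_nonneg.2 hεC) (hα0 I hI)
        have h2 := mul_nonneg hεpos.le (hc I hI)
        linarith
      · rw [Finset.sum_add_distrib, ← Finset.mul_sum, ← Finset.mul_sum, hα1, ← hC]
        ring
      · have h1 : ∑ I ∈ M, ((1 - ε * C) * α I + ε * c I) • ind I =
            (1 - ε * C) • ∑ I ∈ M, α I • ind I + ε • ∑ I ∈ M, c I • ind I := by
          simp only [Finset.smul_sum, ← Finset.sum_add_distrib, add_smul, mul_smul]
        have h2 : ∑ I ∈ M, c I • ind I = wT + C • p := by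
          rw [hwc, hC, Finset.sum_smul, ← Finset.sum_add_distrib]
          apply Finset.sum_congr rfl
          intro I _
          rw [smul_sub, sub_add_cancel]
        rw [h1, h2, hαb, hp]
        module
    have : τ + ε ≤ τ := hτmax hmem
    linarith
  obtain ⟨f, hf, hfw⟩ := farkas _ _ _ hcone
  let ν : ℕ → ℝ := fun i => if h : i ∈ T then f (Pi.single ⟨i, h⟩ 1) else 0
  have hfx : ∀ x : T → ℝ, f x = ∑ i : T, x i * f (Pi.single i 1) := by
    intro x
    conv_lhs => rw [pi_eq_sum_univ' x]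
    rw [map_sum]
    apply Finset.sum_congr rfl
    intro i _
    rw [map_smul, smul_eq_mul]
  have hfind : ∀ I ∈ M, f (ind I) = ∑ i ∈ I, ν i := by
    intro I hI
    have hIT : I ⊆ T := fun i hi => Finset.mem_biUnion.2 ⟨I, hI, hi⟩
    rw [hfx]
    have h1 : ∑ i : T, ind I i * f (Pi.single i 1) = ∑ i : T, (if (i : ℕ) ∈ I then ν i else 0) := by
      apply Finset.sum_congr rfl
      intro i _
      by_cases h : (i : ℕ) ∈ I
      · simp [ind, ν, h]
      · simp [ind, h]
    rw [h1, Finset.sum_coe_sort T (fun i => if i ∈ I then ν i else 0), ← Finset.sum_filter]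
    congr 1
    ext i
    rw [Finset.mem_filter]
    exact ⟨fun h => h.2, fun h => ⟨hIT h, h⟩⟩
  have hfp : ∀ I ∈ M, f p ≤ f (ind I) := by
    intro I hI
    have := hf I hI
    rw [map_sub] at this
    linarith
  have hfpα : f p = ∑ I ∈ M, α I * f (ind I) := by
    rw [← hαb, map_sum]
    apply Finset.sum_congr rfl
    intro I _
    rw [map_smul, smul_eq_mul]
  refine ⟨ν, α, τ, hτpos, hα0, hα1, ?_, ?_, ?_⟩
  · intro i
    by_cases hi : i ∈ T
    · have h1 := congrFun hαb ⟨i, hi⟩
      rw [hmarg] at h1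
      exact h1
    · rw [hwT i hi, mul_zero, add_zero]
      have : M.filter (fun I => i ∈ I) = ∅ := by
        rw [Finset.filter_eq_empty_iff]
        intro I hI h
        exact hi (Finset.mem_biUnion.2 ⟨I, hI, h⟩)
      rw [this]
      simp
  · intro I hI hαI J hJ
    rw [← hfind I hI, ← hfind J hJ]
    have hαpos : 0 < α I := lt_of_le_of_ne (hα0 I hI) (Ne.symm hαI)
    have h1 : f (ind I) = f p := by
      by_contra hne
      have h2 : f p < f (ind I) := lt_of_le_of_ne (hfp I hI) (Ne.symm hne)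
      have h3 : ∑ J ∈ M, α J * f p < ∑ J ∈ M, α J * f (ind J) := by
        apply Finset.sum_lt_sum
        · intro J hJ
          exact mul_le_mul_of_nonneg_left (hfp J hJ) (hα0 J hJ)
        · exact ⟨I, hI, mul_lt_mul_of_pos_left h2 hαpos⟩
      rw [← Finset.sum_mul, hα1, one_mul, ← hfpα] at h3
      exact lt_irrefl _ h3
    rw [h1]
    exact hfp J hJ
  · by_contra hcon
    push Not at hcon
    obtain ⟨I0, hI0⟩ := hM
    have h1 : f wT = ∑ I ∈ M, β I * f (ind I) := by
      have h2 : wT = ∑ I ∈ M, β I • ind I := by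
        funext i
        rw [hmarg]
        exact hwβ i
      rw [h2, map_sum]
      apply Finset.sum_congr rfl
      intro I _
      rw [map_smul, smul_eq_mul]
    have h3 : ∑ I ∈ M, β I * f (ind I) = ∑ I ∈ M, β I * f (ind I0) := by
      apply Finset.sum_congr rfl
      intro I hI
      rw [hfind I hI, hfind I0 hI0, hcon I hI I0 hI0]
    rw [← Finset.sum_mul, hβ, zero_mul] at h3
    rw [h1, h3] at hfw
    exact lt_irrefl _ hfw

end ABCT.H96
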